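import Mathlib
import Pool.Agent.TH718.UG2.Core

/-! Very general points: one countable family of hypersurfaces for all classes. -/

namespace Pool.Agent.TH718.UG2

open MvPolynomial

/-- the hypothesis of `core` -/
def Hyp {n : ℕ} (d : ℕ) (w : Fin n → ℕ) (T : Finset (Fin n)) : Prop :=
  ((12 ≤ T.card ∨ ¬ 3 ∣ d) ∧
      √(T.card : ℝ) * d < (∑ i ∈ T, (w i : ℝ)) + 1 - 3 / √(T.card : ℝ)) ∨
    ∃ k : ℕ, 1 ≤ k ∧ (∀ i ∈ T, w i = k ∨ w i = k + 1) ∧ d ^ 2 ≤ ∑ i ∈ T, w i ^ 2 ∧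
      ¬ (T.card = 10 ∧ k = 1 ∧ (d = 4 ∨ d = 5) ∧ ∑ i ∈ T, w i ^ 2 = d ^ 2)

theorem exists_family (n : ℕ) : ∃ F : ℕ → MvPolynomial (Fin n × Fin 2) ℂ, (∀ k, F k ≠ 0) ∧
    ∀ P : Fin n → Fin 2 → ℂ, (∀ k, eval (fun q : Fin n × Fin 2 => P q.1 q.2) (F k) ≠ 0) →
      ∀ (d : ℕ) (w : Fin n → ℕ) (T : Finset (Fin n)), 0 < d → 10 ≤ T.card → Hyp d w T →
        forms P d w = ⊥ := by
  classical
  have key : ∀ x : ℕ × (Fin n → ℕ) × Finset (Fin n), ∃ F : MvPolynomial (Fin n × Fin 2) ℂ,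
      F ≠ 0 ∧ ∀ P : Fin n → Fin 2 → ℂ, eval (fun q : Fin n × Fin 2 => P q.1 q.2) F ≠ 0 →
        0 < x.1 → 10 ≤ x.2.2.card → Hyp x.1 x.2.1 x.2.2 → forms P x.1 x.2.1 = ⊥ := by
    rintro ⟨d, w, T⟩
    by_cases h : 0 < d ∧ 10 ≤ T.card ∧ Hyp d w T
    · obtain ⟨h1, h2, h3⟩ := h
      obtain ⟨F, hF, hF'⟩ := core n w d h1 T h2 h3
      exact ⟨F, hF, fun P hP _ _ _ => (hF' P hP).1⟩
    · exact ⟨1, one_ne_zero, fun P _ h1 h2 h3 => absurd ⟨h1, h2, h3⟩ h⟩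
  choose F hF hF' using key
  obtain ⟨e, he⟩ := exists_surjective_nat (ℕ × (Fin n → ℕ) × Finset (Fin n))
  refine ⟨fun k => F (e k), fun k => hF _, fun P hP d w T h1 h2 h3 => ?_⟩
  obtain ⟨k, hk⟩ := he (d, w, T)
  have h4 := hF' (e k) P (hP k)
  rw [hk] at h4
  exact h4 h1 h2 h3

end Pool.Agent.TH718.UG2
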